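import Pool.Agent.MWLQ.StmtsB

/-!
# MWLQ, row GFA: the image of the first part in the form `gh` (adapted from MWLE.GFA of helper35)
-/

set_option autoImplicit false

namespace Pool.Agent.MWLQ.H60

open Pool.Agent.Helper14_MV
open Pool.Agent.Helper2_MV (RR)
open Pool.Agent.MWGN (gh gh_succ)
open Pool.Agent.MWGQ (pw)
open Pool.Agent.MWLE (pin sep con)
open Pool.Agent.MWLQ

theorem rep_flat (k c : ℕ) (f : ℕ → List ℕ) : (List.replicate k c).flatMap f = pw k (f c) := by
  rw [List.flatMap_replicate]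
  rfl

theorem gh_congr {g h h' : ℕ → List ℕ} : ∀ {N : ℕ}, (∀ i < N, h i = h' i) → gh g h N = gh g h' N
  | 0, _ => rfl
  | N + 1, H => by
    rw [gh_succ, gh_succ, gh_congr (fun i hi => H i (by omega)), H N (by omega)]

theorem cp_succ (n s k : ℕ) :
    cp n s (k + 1) = cp n s k ++ pin (s + k) :: List.replicate (n + 1) (con (s + k)) := by
  unfold cp
  rw [List.range_succ, List.flatMap_append]
  simp

theorem gh_cp (n : ℕ) (f : ℕ → List ℕ) : ∀ k : ℕ,
    gh (fun i => f (pin i)) (fun i => if 1 ≤ i then pw (n + 1) (f (con i)) else []) (k + 1) =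
      f (pin 0) ++ (cp n 1 k).flatMap f
  | 0 => by
    rw [gh_succ]
    simp [gh, cp]
  | k + 1 => by
    rw [gh_succ, gh_cp n f k, cp_succ, List.flatMap_append, List.flatMap_cons, rep_flat]
    have h1 : 1 + k = k + 1 := by omega
    rw [h1, if_pos (by omega)]
    simp [List.append_assoc]

/-- ROW GFA -/
theorem gfa : GfaStmt := by
  intro n m f h hh
  have hm : ∀ i < m, h i = (fun i => if 1 ≤ i then pw (n + 1) (f (con i)) else []) i := by
    intro i hi
    rw [hh]
    simp only
    rw [if_neg (show ¬ i = m by omega), List.append_nil]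
    by_cases h1 : 1 ≤ i
    · rw [if_pos h1, if_pos ⟨h1, by omega⟩]
    · rw [if_neg h1, if_neg (fun h2 => h1 h2.1)]
  have hm2 : h m = (if 1 ≤ m then pw (n + 1) (f (con m)) else []) ++
      (f 0 ++ pw (n + 1) (f (con (m + 1)))) := by
    rw [hh]
    simp only
    rw [if_pos trivial]
    by_cases h1 : 1 ≤ m
    · rw [if_pos h1, if_pos ⟨h1, le_rfl⟩]
    · rw [if_neg h1, if_neg (fun h2 => h1 h2.1)]
  have hm3 : h (m + 1) = [] := by
    rw [hh]
    simp
  have e1 : gh (fun i => f (pin i)) h (m + 1) =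
      f (pin 0) ++ ((cp n 1 m).flatMap f ++ (f 0 ++ pw (n + 1) (f (con (m + 1))))) := by
    have e2 := gh_cp n f m
    rw [gh_succ] at e2
    rw [gh_succ, gh_congr hm, hm2]
    rw [← List.append_assoc (f (pin 0)), ← e2]
    simp only [List.append_assoc]
  have e3 : (N0 n m ++ 0 :: List.replicate (n + 1) (con (m + 1))).flatMap f =
      f 1 ++ (pw (n + 1) (f (con 0)) ++ gh (fun i => f (pin i)) h (m + 1)) := by
    rw [e1]
    unfold N0
    rw [List.flatMap_append, List.flatMap_cons, List.flatMap_append, List.flatMap_cons,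
      List.flatMap_cons, rep_flat, rep_flat]
    simp only [List.append_assoc]
  refine ⟨e3, ?_⟩
  rw [gh_succ, hm3]
  have e4 : (N0 n m ++ 0 :: (List.replicate (n + 1) (con (m + 1)) ++ [pin (m + 1)])) =
      (N0 n m ++ 0 :: List.replicate (n + 1) (con (m + 1))) ++ [pin (m + 1)] := by
    simp
  rw [e4, List.flatMap_append, e3]
  simp [List.append_assoc]

end Pool.Agent.MWLQ.H60
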